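import Pool.Agent.Y206.Q.Stm

/-!
# (DTT) three ruling lines of one family
-/

set_option autoImplicit false

namespace Pool.Agent.Y366.QG

open MvPolynomial
open Pool.Agent.Helper947.Geo Pool.Agent.Y206.Q

/-- evaluation of a form at a multiple -/
theorem hsmul {d : ℕ} (f : MvPolynomial (Fin d) ℂ) (D : ℕ) (hf : f.IsHomogeneous D)
    (c : ℂ) (x : Fin d → ℂ) : eval (c • x) f = c ^ D * eval x f := by
  rw [eval_eq, eval_eq, Finset.mul_sum]
  refine Finset.sum_congr rfl fun m hm => ?_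
  have hm' : ∑ i ∈ m.support, m i = D := by
    have h := hf (mem_support_iff.1 hm)
    rw [← h, Finsupp.weight_apply, Finsupp.sum]
    simp
  simp only [Pi.smul_apply, smul_eq_mul, mul_pow]
  rw [Finset.prod_mul_distrib, Finset.prod_pow_eq_pow_sum, hm']
  ring

/-! ### polynomial functions -/

/-- polynomial functions -/
def PF {ι : Type} (F : (ι → ℂ) → ℂ) : Prop := ∃ p : MvPolynomial ι ℂ, ∀ z, F z = eval z p

theorem PF.coord {ι : Type} (i : ι) : PF (fun z : ι → ℂ => z i) := ⟨X i, fun z => by simp⟩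

theorem PF.const {ι : Type} (c : ℂ) : PF (fun _ : ι → ℂ => c) := ⟨C c, fun z => by simp⟩

theorem PF.add {ι : Type} {F G : (ι → ℂ) → ℂ} (hF : PF F) (hG : PF G) :
    PF (fun z => F z + G z) := by
  obtain ⟨p, hp⟩ := hF
  obtain ⟨q, hq⟩ := hG
  exact ⟨p + q, fun z => by simp only [map_add, hp, hq]⟩

theorem PF.sub {ι : Type} {F G : (ι → ℂ) → ℂ} (hF : PF F) (hG : PF G) :
    PF (fun z => F z - G z) := by
  obtain ⟨p, hp⟩ := hF
  obtain ⟨q, hq⟩ := hG
  exact ⟨p - q, fun z => by simp only [map_sub, hp, hq]⟩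

theorem PF.mul {ι : Type} {F G : (ι → ℂ) → ℂ} (hF : PF F) (hG : PF G) :
    PF (fun z => F z * G z) := by
  obtain ⟨p, hp⟩ := hF
  obtain ⟨q, hq⟩ := hG
  exact ⟨p * q, fun z => by simp only [map_mul, hp, hq]⟩

theorem PF.comp {ι κ : Type} (f : MvPolynomial κ ℂ) (φ : (ι → ℂ) → κ → ℂ)
    (hφ : ∀ i, PF (fun z => φ z i)) : PF (fun z => eval (φ z) f) := by
  choose q hq using hφ
  refine ⟨bind₁ q f, fun z => ?_⟩
  have h1 : φ z = fun i => eval z (q i) := funext fun i => hq i z
  simp only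
  rw [h1]
  have h2 : (eval z).comp (bind₁ q : MvPolynomial κ ℂ →+* MvPolynomial ι ℂ) =
      eval (fun i => eval z (q i)) := by
    apply MvPolynomial.ringHom_ext
    · intro c
      simp
    · intro i
      simp
  have := congrArg (fun g : MvPolynomial κ ℂ →+* ℂ => g f) h2
  simpa using this.symm

theorem PF.zero_of_mul {ι : Type} {F G : (ι → ℂ) → ℂ} (hF : PF F) (hG : PF G)
    (h : ∀ z, F z * G z = 0) : (∀ z, F z = 0) ∨ ∀ z, G z = 0 := by
  obtain ⟨p, hp⟩ := hF
  obtain ⟨q, hq⟩ := hG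
  have h1 : p * q = 0 := by
    apply MvPolynomial.funext
    intro z
    rw [map_mul, ← hp, ← hq, h, map_zero]
  rcases mul_eq_zero.1 h1 with h2 | h2
  · left; intro z; rw [hp, h2, map_zero]
  · right; intro z; rw [hq, h2, map_zero]

theorem exists_ne {ι : Type} {f : MvPolynomial ι ℂ} (hf : f ≠ 0) : ∃ z, eval z f ≠ 0 := by
  by_contra hcon
  push Not at hcon
  apply hf
  apply MvPolynomial.funext
  intro z
  rw [hcon, map_zero]

/-! ### the Segre map -/

theorem E_add (e : Fin 2 → Fin 2 → Fin 4 → ℂ) (s t u : Fin 2 → ℂ) :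
    E e s (t + u) = E e s t + E e s u := by
  unfold E
  simp only [Pi.add_apply]
  module

theorem E_smul (e : Fin 2 → Fin 2 → Fin 4 → ℂ) (s t : Fin 2 → ℂ) (c : ℂ) :
    E e s (c • t) = c • E e s t := by
  unfold E
  simp only [Pi.smul_apply, smul_eq_mul]
  module

theorem E_lin (e : Fin 2 → Fin 2 → Fin 4 → ℂ) (s s' t : Fin 2 → ℂ) (a b : ℂ) :
    E e (a • s + b • s') t = a • E e s t + b • E e s' t := by
  unfold E
  simp only [Pi.add_apply, Pi.smul_apply, smul_eq_mul]
  module

theorem projv_neg (x y : Fin 4 → ℂ) : projv (x + y) x = (-1 : ℂ) • projv (x + y) y := by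
  funext i
  simp only [projv, Pi.add_apply, Pi.smul_apply, smul_eq_mul]
  ring

theorem projv_smul (P x : Fin 4 → ℂ) (c : ℂ) : projv P (c • x) = c • projv P x := by
  funext i
  simp only [projv, Pi.smul_apply, smul_eq_mul]
  ring

theorem surj (e : Fin 2 → Fin 2 → Fin 4 → ℂ) (he : Basis4 e) (s s' : Fin 2 → ℂ)
    (hs : dt s s' ≠ 0) (y : Fin 4 → ℂ) : ∃ u v, y = E e s u + E e s' v := by
  have h1 : Submodule.span ℂ (Set.range fun p : Fin 2 × Fin 2 => e p.1 p.2) = ⊤ :=
    LinearIndependent.span_eq_top_of_card_eq_finrank' he (by simp)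
  have h2 : y ∈ Submodule.span ℂ (Set.range fun p : Fin 2 × Fin 2 => e p.1 p.2) := by
    rw [h1]
    exact Submodule.mem_top
  obtain ⟨c, hc⟩ := (Submodule.mem_span_range_iff_exists_fun ℂ).1 h2
  refine ⟨fun j => (c (0, j) * s' 1 - c (1, j) * s' 0) / dt s s',
    fun j => (s 0 * c (1, j) - s 1 * c (0, j)) / dt s s', ?_⟩
  rw [← hc, Fintype.sum_prod_type]
  simp only [Fin.sum_univ_two]
  have k0 : ∀ j, s 0 * ((c (0, j) * s' 1 - c (1, j) * s' 0) / dt s s') +
      s' 0 * ((s 0 * c (1, j) - s 1 * c (0, j)) / dt s s') = c (0, j) := by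
    intro j
    field_simp
    rw [dt]
    ring
  have k1 : ∀ j, s 1 * ((c (0, j) * s' 1 - c (1, j) * s' 0) / dt s s') +
      s' 1 * ((s 0 * c (1, j) - s 1 * c (0, j)) / dt s s') = c (1, j) := by
    intro j
    field_simp
    rw [dt]
    ring
  unfold E
  rw [← k0 0, ← k0 1, ← k1 0, ← k1 1]
  module

theorem PF.E (e : Fin 2 → Fin 2 → Fin 4 → ℂ) (s : Fin 2 → ℂ) {ι : Type}
    (T : (ι → ℂ) → Fin 2 → ℂ) (hT : ∀ i, PF (fun z => T z i)) (i : Fin 4) :
    PF (fun z => E e s (T z) i) := by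
  change PF (fun z => s 0 * T z 0 * e 0 0 i + s 0 * T z 1 * e 0 1 i + s 1 * T z 0 * e 1 0 i +
    s 1 * T z 1 * e 1 1 i)
  exact (((((PF.const _).mul (hT 0)).mul (PF.const _)).add
    (((PF.const _).mul (hT 1)).mul (PF.const _))).add
    (((PF.const _).mul (hT 0)).mul (PF.const _))).add
    (((PF.const _).mul (hT 1)).mul (PF.const _))

theorem dtt : S_DTT := by
  intro e he n s hs D hD hD0 φ hφ hP x hx
  have h01 := hs 0 1 (by decide)
  have h02 := hs 0 2 (by decide)
  have h21 := hs 2 1 (by decide)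
  obtain ⟨al, be, hal, hbe, h2⟩ : ∃ al be : ℂ, al ≠ 0 ∧ be ≠ 0 ∧ s 2 = al • s 0 + be • s 1 := by
    refine ⟨dt (s 2) (s 1) / dt (s 0) (s 1), dt (s 0) (s 2) / dt (s 0) (s 1),
      div_ne_zero h21 h01, div_ne_zero h02 h01, ?_⟩
    funext i
    simp only [Pi.add_apply, Pi.smul_apply, smul_eq_mul]
    field_simp
    fin_cases i
    · simp only [dt, Fin.zero_eta]
      ring
    · simp only [dt, Fin.mk_one]
      ring
  -- the key identity
  have key : ∀ u v : Fin 2 → ℂ, eval (E e (s 0) u + E e (s 1) v) φ ≠ 0 → eval u (D 0) ≠ 0 →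
      eval (al • v - be • u) (D 0) ≠ 0 →
      eval (al • v - be • u) (D 0) * eval u (D 2) * eval v (D 1) =
        eval v (D 2) * eval (al • v - be • u) (D 1) * eval u (D 0) := by
    intro u v h1 hu hw
    set w := al • v - be • u with hwd
    obtain ⟨H, c, hH, hc0, hHc⟩ := hP _ h1
    have e1 : c 0 * eval u (D 0) = (-1) ^ n * (c 1 * eval v (D 1)) := by
      rw [← hHc, ← hHc, ← hsmul H n hH, ← projv_neg]
    have p2 : E e (s 0) u + E e (s 1) v =
        E e (s 0) ((-be⁻¹) • w) + E e (s 2) (be⁻¹ • v) := by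
      rw [h2]
      funext i
      simp only [E, Pi.add_apply, Pi.smul_apply, smul_eq_mul, hwd, Pi.sub_apply]
      field_simp
      ring
    have p3 : E e (s 0) u + E e (s 1) v =
        E e (s 1) (al⁻¹ • w) + E e (s 2) (al⁻¹ • u) := by
      rw [h2]
      funext i
      simp only [E, Pi.add_apply, Pi.smul_apply, smul_eq_mul, hwd, Pi.sub_apply]
      field_simp
      ring
    have e2 : c 0 * eval w (D 0) = c 2 * eval v (D 2) := by
      have h4 : c 0 * eval ((-be⁻¹) • w) (D 0) = (-1) ^ n * (c 2 * eval (be⁻¹ • v) (D 2)) := by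
        rw [← hHc, ← hHc, ← hsmul H n hH, p2, ← projv_neg]
      rw [hsmul _ n (hD 0), hsmul _ n (hD 2), neg_pow] at h4
      have h5 : ((-1 : ℂ) ^ n * be⁻¹ ^ n) * (c 0 * eval w (D 0)) =
          ((-1 : ℂ) ^ n * be⁻¹ ^ n) * (c 2 * eval v (D 2)) := by
        rw [mul_assoc] at h4
        linear_combination h4
      exact mul_left_cancel₀ (mul_ne_zero (pow_ne_zero _ (by norm_num))
        (pow_ne_zero _ (inv_ne_zero hbe))) h5
    have e3 : c 1 * eval w (D 1) = (-1) ^ n * (c 2 * eval u (D 2)) := by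
      have h4 : c 1 * eval (al⁻¹ • w) (D 1) = (-1) ^ n * (c 2 * eval (al⁻¹ • u) (D 2)) := by
        rw [← hHc, ← hHc, ← hsmul H n hH, p3, ← projv_neg]
      rw [hsmul _ n (hD 1), hsmul _ n (hD 2)] at h4
      refine mul_left_cancel₀ (pow_ne_zero n (inv_ne_zero hal)) ?_
      linear_combination h4
    have hc1 : c 1 ≠ 0 := by
      intro h
      rw [h, zero_mul, mul_zero] at e1
      exact mul_ne_zero hc0 hu e1
    have hc2 : c 2 ≠ 0 := by
      intro h
      rw [h, zero_mul] at e2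
      exact mul_ne_zero hc0 hw e2
    have hpm : ((-1 : ℂ) ^ n) * (-1) ^ n = 1 := by
      rw [← mul_pow]
      norm_num
    refine mul_left_cancel₀ (mul_ne_zero (mul_ne_zero hc0 hc1) hc2) ?_
    calc c 0 * c 1 * c 2 * (eval w (D 0) * eval u (D 2) * eval v (D 1))
        = (c 0 * eval w (D 0)) * ((-1) ^ n * (c 2 * eval u (D 2))) *
          ((-1) ^ n * (c 1 * eval v (D 1))) := by
          linear_combination (-(c 0 * c 1 * c 2 * (eval w (D 0) * eval u (D 2) * eval v (D 1)))) *
            hpm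
      _ = (c 2 * eval v (D 2)) * (c 1 * eval w (D 1)) * (c 0 * eval u (D 0)) := by
          rw [e2, e3, e1]
      _ = _ := by ring
  -- the identity everywhere
  have all : ∀ u v : Fin 2 → ℂ,
      eval (al • v - be • u) (D 0) * eval u (D 2) * eval v (D 1) =
        eval v (D 2) * eval (al • v - be • u) (D 1) * eval u (D 0) := by
    let U : (Fin 4 → ℂ) → Fin 2 → ℂ := fun z => ![z 0, z 1]
    let V : (Fin 4 → ℂ) → Fin 2 → ℂ := fun z => ![z 2, z 3]
    have hU : ∀ i, PF (fun z => U z i) := by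
      intro i
      fin_cases i
      · exact PF.coord 0
      · exact PF.coord 1
    have hV : ∀ i, PF (fun z => V z i) := by
      intro i
      fin_cases i
      · exact PF.coord 2
      · exact PF.coord 3
    have hW : ∀ i, PF (fun z => (al • V z - be • U z) i) := fun i =>
      ((PF.const al).mul (hV i)).sub ((PF.const be).mul (hU i))
    have hE : ∀ i, PF (fun z => (E e (s 0) (U z) + E e (s 1) (V z)) i) := fun i =>
      (PF.E e (s 0) U hU i).add (PF.E e (s 1) V hV i)
    have f1 := PF.comp φ _ hE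
    have f2 := PF.comp (D 0) _ hU
    have f3 := PF.comp (D 0) _ hW
    have f4 : PF (fun z => eval (al • V z - be • U z) (D 0) * eval (U z) (D 2) *
        eval (V z) (D 1) - eval (V z) (D 2) * eval (al • V z - be • U z) (D 1) *
        eval (U z) (D 0)) :=
      ((f3.mul (PF.comp (D 2) _ hU)).mul (PF.comp (D 1) _ hV)).sub
        (((PF.comp (D 2) _ hV).mul (PF.comp (D 1) _ hW)).mul f2)
    have hUV : ∀ u v : Fin 2 → ℂ, ∃ z, U z = u ∧ V z = v := by
      intro u v
      refine ⟨![u 0, u 1, v 0, v 1], ?_, ?_⟩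
      · funext i
        fin_cases i <;> rfl
      · funext i
        fin_cases i <;> rfl
    have h4 := PF.zero_of_mul ((f1.mul f2).mul f3) f4 (by
      intro z
      by_cases g1 : eval (E e (s 0) (U z) + E e (s 1) (V z)) φ = 0
      · simp only [g1, zero_mul]
      by_cases g2 : eval (U z) (D 0) = 0
      · simp only [g2, zero_mul, mul_zero]
      by_cases g3 : eval (al • V z - be • U z) (D 0) = 0
      · simp only [g3, zero_mul, mul_zero]
      rw [sub_eq_zero.2 (key _ _ g1 g2 g3), mul_zero])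
    rcases h4 with h4 | h4
    · exfalso
      rcases PF.zero_of_mul (f1.mul f2) f3 h4 with h5 | h5
      · rcases PF.zero_of_mul f1 f2 h5 with h6 | h6
        · obtain ⟨y, hy⟩ := exists_ne hφ
          obtain ⟨u, v, huv⟩ := surj e he (s 0) (s 1) h01 y
          obtain ⟨z, rfl, rfl⟩ := hUV u v
          apply hy
          rw [huv]
          exact h6 z
        · obtain ⟨u, hu⟩ := exists_ne (hD0 0)
          obtain ⟨z, hz, -⟩ := hUV u 0
          apply hu
          rw [← hz]
          exact h6 z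
      · obtain ⟨w, hw⟩ := exists_ne (hD0 0)
        obtain ⟨z, hz1, hz2⟩ := hUV 0 (al⁻¹ • w)
        apply hw
        have := h5 z
        rw [hz1, hz2, smul_zero, sub_zero, smul_smul, mul_inv_cancel₀ hal, one_smul] at this
        exact this
    · intro u v
      obtain ⟨z, rfl, rfl⟩ := hUV u v
      exact sub_eq_zero.1 (h4 z)
  by_contra hne
  have hfin : ∀ u : Fin 2 → ℂ, eval (al⁻¹ • (x + be • u)) (D 2) * eval u (D 0) = 0 := by
    intro u
    have h5 := all u (al⁻¹ • (x + be • u))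
    rw [smul_smul, mul_inv_cancel₀ hal, one_smul, add_sub_cancel_right, hx, zero_mul,
      zero_mul] at h5
    have h6 : eval x (D 1) * (eval (al⁻¹ • (x + be • u)) (D 2) * eval u (D 0)) = 0 := by
      linear_combination -h5
    exact (mul_eq_zero.1 h6).resolve_left hne
  have g1 : PF (fun u : Fin 2 → ℂ => eval (al⁻¹ • (x + be • u)) (D 2)) :=
    PF.comp (D 2) _ fun i => (PF.const al⁻¹).mul
      ((PF.const (x i)).add ((PF.const be).mul (PF.coord i)))
  have g2 : PF (fun u : Fin 2 → ℂ => eval u (D 0)) := ⟨D 0, fun _ => rfl⟩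
  rcases PF.zero_of_mul g1 g2 hfin with h5 | h5
  · obtain ⟨w, hw⟩ := exists_ne (hD0 2)
    apply hw
    have := h5 (be⁻¹ • (al • w - x))
    rw [smul_smul, mul_inv_cancel₀ hbe, one_smul, add_sub_cancel, smul_smul,
      inv_mul_cancel₀ hal, one_smul] at this
    exact this
  · obtain ⟨w, hw⟩ := exists_ne (hD0 0)
    exact hw (h5 w)

end Pool.Agent.Y366.QG
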